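import Pool.Agent.Helper4.RS.Approx
import Pool.Agent.Helper33.RS.Defs

/-!
# From polytopes to convex bodies
-/

set_option autoImplicit false

namespace Pool.Agent.Helper4.RS

open MeasureTheory Metric Set Filter Topology
open Pool.Agent.Helper59.Pack Pool.Agent.Helper69.MD
open scoped Pointwise ENNReal

/-- the inequality for polytopes -/
def PolyCase : Prop := ∀ (n : ℕ) (u : Fin n → E3) (s : ℝ), 0 ≤ s → Bornology.IsBounded {x : E3 | ∀ i, inner ℝ (u i) x ≤ 1} →
  (∀ i, ∀ x ∈ {x : E3 | ∀ i, inner ℝ (u i) x ≤ 1}, -s ≤ inner ℝ (u i) x) →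
  volume ({x : E3 | ∀ i, inner ℝ (u i) x ≤ 1} - {x : E3 | ∀ i, inner ℝ (u i) x ≤ 1}) ≤
    ENNReal.ofReal (2 + 6 * s) * volume {x : E3 | ∀ i, inner ℝ (u i) x ≤ 1}

theorem diff_centred (hP : PolyCase) {K : Set E3} (hK : IsConvexBody K) (h0 : (0 : E3) ∈ interior K) {s : ℝ} (hs : 0 ≤ s)
    (h : ∀ y ∈ K, -y ∈ s • K) : volume (K - K) ≤ ENNReal.ofReal (2 + 6 * s) * volume K := by
  have hfin : volume K ≠ ⊤ := hK.isCompact.measure_lt_top.ne
  have key : ∀ e : ℝ, 1 < e → volume (K - K) ≤ ENNReal.ofReal ((2 + 6 * (e * s)) * e ^ 3) * volume K := by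
    intro e he
    have he0 : 0 < e := by linarith
    obtain ⟨n, u, h1, h2⟩ := approx hK h0 he
    obtain ⟨P, hPdef⟩ : ∃ P : Set E3, P = {x : E3 | ∀ i, inner ℝ (u i) x ≤ 1} := ⟨_, rfl⟩
    rw [← hPdef] at h1 h2
    have h3 := hP n u (e * s) (by positivity) (by
      rw [← hPdef]
      exact (hK.isCompact.smul e).isBounded.subset h2) (by
      rw [← hPdef]
      intro i x hx
      obtain ⟨k, hk, rfl⟩ := h2 hx
      obtain ⟨k', hk', hkk⟩ := h k hk
      have h4 : inner ℝ (u i) k' ≤ 1 := by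
        have := h1 hk'
        rw [hPdef] at this
        exact this i
      have h5 : inner ℝ (u i) (-k) = s * inner ℝ (u i) k' := by
        rw [← hkk]
        simp only
        rw [inner_smul_right]
      rw [inner_neg_right] at h5
      simp only
      rw [inner_smul_right]
      have h6 : inner ℝ (u i) k = -(s * inner ℝ (u i) k') := by linarith
      rw [h6]
      have h7 : s * inner ℝ (u i) k' ≤ s := by nlinarith
      nlinarith)
    rw [← hPdef] at h3
    calc volume (K - K) ≤ volume (P - P) := measure_mono (Set.sub_subset_sub h1 h1)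
      _ ≤ ENNReal.ofReal (2 + 6 * (e * s)) * volume P := h3
      _ ≤ ENNReal.ofReal (2 + 6 * (e * s)) * volume (e • K) := by gcongr
      _ = ENNReal.ofReal ((2 + 6 * (e * s)) * e ^ 3) * volume K := by
        rw [Measure.addHaar_smul, ← mul_assoc, ← ENNReal.ofReal_mul (by positivity)]
        congr 3
        rw [finrank_euclideanSpace, Fintype.card_fin, abs_of_pos (by positivity)]
  have h1 : Tendsto (fun e : ℝ => ENNReal.ofReal ((2 + 6 * (e * s)) * e ^ 3) * volume K) (𝓝[>] 1)
      (𝓝 (ENNReal.ofReal ((2 + 6 * (1 * s)) * 1 ^ 3) * volume K)) := by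
    apply ENNReal.Tendsto.mul_const _ (Or.inr hfin)
    apply (ENNReal.continuous_ofReal.tendsto _).comp
    have h2 : Continuous fun e : ℝ => (2 + 6 * (e * s)) * e ^ 3 := by fun_prop
    exact (h2.tendsto 1).mono_left nhdsWithin_le_nhds
  have h2 := ge_of_tendsto h1 (by
    filter_upwards [self_mem_nhdsWithin] with e he
    exact key e he)
  simpa using h2

/-- **the difference body** -/
theorem diff_vol (hP : PolyCase) {K : Set E3} (hK : IsConvexBody K) {s : ℝ} {x : E3} (hs : 0 ≤ s)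
    (h : ∀ y ∈ K, x - y ∈ s • K) : volume (K - K) ≤ ENNReal.ofReal (2 + 6 * s) * volume K := by
  have hs1 : 0 < 1 + s := by linarith
  obtain ⟨o, ho⟩ : ∃ o : E3, o = (1 + s)⁻¹ • x := ⟨_, rfl⟩
  have hox : (1 + s) • o = x := by
    rw [ho, smul_smul, mul_inv_cancel₀ hs1.ne', one_smul]
  have hoi : o ∈ interior K := by
    obtain ⟨y, hy⟩ := hK.interior_nonempty
    obtain ⟨k, hk, hky⟩ := h y (interior_subset hy)
    have h1 := hK.convex.combo_interior_self_mem_interior hy hk (a := (1 + s)⁻¹) (b := s * (1 + s)⁻¹) (by positivity)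
      (by positivity) (by field_simp)
    have h2 : (1 + s)⁻¹ • y + (s * (1 + s)⁻¹) • k = o := by
      simp only at hky
      have h3 : x = y + s • k := by
        rw [hky]
        abel
      rw [ho, h3, smul_add, smul_smul, mul_comm s]
    rw [h2] at h1
    exact h1
  obtain ⟨L, hL⟩ : ∃ L : Set E3, L = (-o) +ᵥ K := ⟨_, rfl⟩
  have hLK : IsConvexBody L := by
    rw [hL]
    refine ⟨hK.convex.vadd _, hK.isCompact.vadd _, ?_⟩
    rw [interior_vadd]
    exact hK.interior_nonempty.vadd_set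
  have h0L : (0 : E3) ∈ interior L := by
    rw [hL, interior_vadd]
    exact ⟨o, hoi, by simp⟩
  have h1 := diff_centred hP hLK h0L hs (by
    intro y hy
    rw [hL] at hy
    obtain ⟨k, hk, rfl⟩ := hy
    obtain ⟨k', hk', hkk⟩ := h k hk
    simp only at hkk
    refine ⟨-o + k', ?_, ?_⟩
    · rw [hL]
      exact ⟨k', hk', rfl⟩
    · simp only [vadd_eq_add, smul_add, smul_neg]
      rw [hkk, ← hox, add_smul, one_smul]
      abel)
  have h2 : L - L = K - K := by
    rw [hL]
    ext z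
    constructor
    · rintro ⟨_, ⟨a, ha, rfl⟩, _, ⟨b, hb, rfl⟩, rfl⟩
      exact ⟨a, ha, b, hb, by simp⟩
    · rintro ⟨a, ha, b, hb, rfl⟩
      exact ⟨-o + a, ⟨a, ha, rfl⟩, -o + b, ⟨b, hb, rfl⟩, by simp⟩
  have h3 : volume L = volume K := by
    rw [hL]
    exact measure_vadd _ _ _
  rwa [h2, h3] at h1

open Pool.Agent.Helper33.RS (poly) in
/-- the same with finite sets of normals -/
theorem polyCase_of (hP : ∀ (U : Finset E3) (s : ℝ), 0 ≤ s → Bornology.IsBounded (poly U) →
    (∀ u ∈ U, ∀ x ∈ poly U, -s ≤ inner ℝ u x) →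
    volume (poly U - poly U) ≤ ENNReal.ofReal (2 + 6 * s) * volume (poly U)) : PolyCase := by
  classical
  intro n u s hs hb h
  have e : poly (Finset.univ.image u) = {x : E3 | ∀ i, inner ℝ (u i) x ≤ 1} := by
    ext x
    simp [Pool.Agent.Helper33.RS.poly]
  have h1 := hP (Finset.univ.image u) s hs (by rw [e]; exact hb) (by
    intro v hv x hx
    rw [e] at hx
    obtain ⟨i, _, rfl⟩ := Finset.mem_image.1 hv
    exact h i x hx)
  rwa [e] at h1

end Pool.Agent.Helper4.RS
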