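import Pool.Agent.Helper59.Pack.Section

/-!
# Approximation of a convex body by a polytope
-/

set_option autoImplicit false

namespace Pool.Agent.Helper4.RS

open MeasureTheory Metric Set
open Pool.Agent.Helper59.Pack Pool.Agent.Helper69.MD
open scoped Pointwise

/-- a halfspace between a compact convex set with `0` inside and a point outside -/
theorem sep {K : Set E3} (hK : IsConvexBody K) (h0 : (0 : E3) ∈ interior K) {x : E3} (hx : x ∉ K) :
    ∃ u : E3, (∀ y ∈ K, inner ℝ u y ≤ 1) ∧ 1 < inner ℝ u x := by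
  obtain ⟨f, c, h1, h2⟩ := geometric_hahn_banach_closed_point hK.convex hK.isCompact.isClosed hx
  have hc : 0 < c := by
    have := h1 0 (interior_subset h0)
    rwa [map_zero] at this
  obtain ⟨u, hu⟩ : ∃ u : E3, ∀ y, inner ℝ u y = f y := ⟨(InnerProductSpace.toDual ℝ E3).symm f, fun y => by
    rw [InnerProductSpace.toDual_symm_apply]⟩
  refine ⟨c⁻¹ • u, fun y hy => ?_, ?_⟩
  · rw [inner_smul_left, hu]
    have := h1 y hy
    simp only [conj_trivial]
    rw [inv_mul_le_iff₀ hc]
    linarith
  · rw [inner_smul_left, hu]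
    simp only [conj_trivial]
    rw [lt_inv_mul_iff₀ hc]
    linarith

/-- **approximation** -/
theorem approx {K : Set E3} (hK : IsConvexBody K) (h0 : (0 : E3) ∈ interior K) {e : ℝ} (he : 1 < e) :
    ∃ (n : ℕ) (u : Fin n → E3), K ⊆ {x | ∀ i, inner ℝ (u i) x ≤ 1} ∧
      {x | ∀ i, inner ℝ (u i) x ≤ 1} ⊆ e • K := by
  classical
  have hnhds : K ∈ nhds (0 : E3) := mem_interior_iff_mem_nhds.1 h0
  have hg : Continuous (gauge K) := continuous_gauge hK.convex hnhds
  have hKg : ∀ x, x ∈ K ↔ gauge K x ≤ 1 := by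
    intro x
    have := gauge_le_one_iff_mem_closure hK.convex hnhds (x := x)
    rw [hK.isCompact.isClosed.closure_eq] at this
    exact this.symm
  have hKe : ∀ x, x ∈ e • K ↔ gauge K x ≤ e := by
    intro x
    have he0 : (0 : ℝ) < e := by linarith
    rw [Set.mem_smul_set_iff_inv_smul_mem₀ he0.ne', hKg, gauge_smul_of_nonneg (by positivity), smul_eq_mul,
      inv_mul_le_iff₀ he0, mul_one]
  -- the sphere
  obtain ⟨Q, hQ⟩ : ∃ S : Set E3, S = {x | gauge K x = e} := ⟨_, rfl⟩
  have hclosed : IsClosed Q := by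
    rw [hQ]
    exact isClosed_eq hg continuous_const
  have hQK : Q ⊆ e • K := by
    intro x hx
    rw [hQ, Set.mem_ofPred_eq] at hx
    rw [hKe, hx]
  have hcomp : IsCompact Q := (hK.isCompact.smul e).of_isClosed_subset hclosed hQK
  have hsep : ∀ x ∈ Q, ∃ u : E3, (∀ y ∈ K, inner ℝ u y ≤ 1) ∧ 1 < inner ℝ u x := by
    intro x hx
    apply sep hK h0
    rw [hKg]
    rw [hQ, Set.mem_ofPred_eq] at hx
    rw [hx]
    linarith
  choose! U hU1 hU2 using hsep
  obtain ⟨T, hT, hcov⟩ := hcomp.elim_nhds_subcover (fun x => {y | 1 < inner ℝ (U x) y}) (fun x hx => by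
    apply IsOpen.mem_nhds
    · exact isOpen_lt continuous_const (by fun_prop)
    · exact hU2 x hx)
  refine ⟨T.card, fun i => U (T.equivFin.symm i), ?_, ?_⟩
  · intro x hx i
    exact hU1 _ (hT _ (T.equivFin.symm i).2) x hx
  · intro x hx
    rw [hKe]
    by_contra hcon
    push Not at hcon
    have hg0 : 0 < gauge K x := by linarith
    have hx' : (e / gauge K x) • x ∈ Q := by
      rw [hQ, Set.mem_ofPred_eq, gauge_smul_of_nonneg (by positivity), smul_eq_mul]
      field_simp
    obtain ⟨t, ht, hxt⟩ := Set.mem_iUnion₂.1 (hcov hx')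
    simp only [Set.mem_ofPred_eq, inner_smul_right] at hxt
    have h1 := hx (T.equivFin ⟨t, ht⟩)
    simp only [Equiv.symm_apply_apply] at h1
    have h2 : e / gauge K x < 1 := by
      rw [div_lt_one hg0]
      exact hcon
    have h3 : 0 < e / gauge K x := by positivity
    nlinarith

end Pool.Agent.Helper4.RS
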